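import Mathlib

set_option autoImplicit false

/-!
# Las Vegas automata and one-way uniform Las Vegas protocols: definitions
-/

namespace Pool.Agent.LVFA

open scoped ENNReal

/-- A distribution on the outputs `1 = some true`, `0 = some false`, `? = none` is correct for the
truth value of `b`: it never gives the wrong answer, and gives the right one with probability at
least `1/2`. -/
def Correct (b : Prop) (ρ : PMF (Option Bool)) : Prop :=
  (b → ρ (some false) = 0 ∧ 1 / 2 ≤ ρ (some true)) ∧
    (¬ b → ρ (some true) = 0 ∧ 1 / 2 ≤ ρ (some false))

/-- A probabilistic finite automaton with `n` states, over the alphabet `α`. A state `q` is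
accepting if `kind q = some true`, rejecting if `kind q = some false`, neutral if
`kind q = none`. -/
structure Automaton (α : Type) (n : ℕ) where
  kind : Fin n → Option Bool
  start : Fin n
  step : Fin n → α → PMF (Fin n)

/-- The distribution of the state reached from the start state on the word `w`. -/
noncomputable def Automaton.run {α : Type} {n : ℕ} (A : Automaton α n) (w : List α) :
    PMF (Fin n) :=
  w.foldl (fun μ a => μ.bind fun q => A.step q a) (PMF.pure A.start)

/-- `A` is a Las Vegas finite automaton recognising `L`. -/
def Automaton.Recognizes {α : Type} {n : ℕ} (A : Automaton α n) (L : Language α) : Prop :=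
  ∀ w : List α, Correct (w ∈ L) ((A.run w).map A.kind)

/-- The least number of states of a Las Vegas finite automaton recognising `L`. -/
noncomputable def lvs {α : Type} (L : Language α) : ℕ :=
  sInf {n | ∃ A : Automaton α n, A.Recognizes L}

/-- A one-way protocol with `k` messages: the first player sends a random message that depends on
`x`, the second player gives a random output that depends on `y` and on the message. -/
structure Protocol (α : Type) (k : ℕ) where
  msg : List α → PMF (Fin k)
  out : List α → Fin k → PMF (Option Bool)

/-- `P` is a uniform Las Vegas protocol for `L`. -/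
def Protocol.IsFor {α : Type} {k : ℕ} (P : Protocol α k) (L : Language α) : Prop :=
  ∀ x y : List α, Correct (x ++ y ∈ L) ((P.msg x).bind (P.out y))

/-- The uniform Las Vegas message complexity of `L`. -/
noncomputable def lvmc {α : Type} (L : Language α) : ℕ :=
  sInf {k | ∃ P : Protocol α k, P.IsFor L}

/-- The largest `lvs L` for a regular language `L` over the alphabet `α` with `lvmc L ≤ m`. -/
noncomputable def G (α : Type) (m : ℕ) : ℕ :=
  sSup {n | ∃ L : Language α, L.IsRegular ∧ lvmc L ≤ m ∧ lvs L = n}

end Pool.Agent.LVFA
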