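import Pool.Agent.LVFA.Defs

set_option autoImplicit false

/-!
# Deterministic automata, and the upper bound `s(L) ≤ k²` for protocols with `k` messages
-/

namespace Pool.Agent.LVFA

open scoped ENNReal

/-! ### Deterministic automata are Las Vegas automata -/

open Classical in
/-- a DFA as a Las Vegas automaton. -/
noncomputable def ofDFA {α σ : Type} [Fintype σ] (M : DFA α σ) : Automaton α (Fintype.card σ) where
  kind q := some (decide ((Fintype.equivFin σ).symm q ∈ M.accept))
  start := Fintype.equivFin σ M.start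
  step q a := PMF.pure (Fintype.equivFin σ (M.step ((Fintype.equivFin σ).symm q) a))

theorem ofDFA_foldl {α σ : Type} [Fintype σ] (M : DFA α σ) (w : List α) (s : σ) :
    w.foldl (fun μ a => μ.bind fun q => (ofDFA M).step q a) (PMF.pure (Fintype.equivFin σ s))
      = PMF.pure (Fintype.equivFin σ (M.evalFrom s w)) := by
  induction w generalizing s with
  | nil => simp
  | cons a w ih =>
    rw [List.foldl_cons, PMF.pure_bind, DFA.evalFrom_cons, ← ih]
    congr 1
    simp [ofDFA]

theorem ofDFA_run {α σ : Type} [Fintype σ] (M : DFA α σ) (w : List α) :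
    (ofDFA M).run w = PMF.pure (Fintype.equivFin σ (M.eval w)) :=
  ofDFA_foldl M w M.start

theorem ofDFA_recognizes {α σ : Type} [Fintype σ] (M : DFA α σ) :
    (ofDFA M).Recognizes M.accepts := by
  classical
  intro w
  rw [ofDFA_run, PMF.pure_map]
  have hk : (ofDFA M).kind (Fintype.equivFin σ (M.eval w)) = some (decide (w ∈ M.accepts)) := by
    simp only [ofDFA, Equiv.symm_apply_apply]
    rfl
  rw [hk]
  constructor
  · intro h
    simp [h, PMF.pure_apply]
  · intro h
    simp [h, PMF.pure_apply]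

theorem lvs_le_of_DFA {α σ : Type} [Fintype σ] (M : DFA α σ) : lvs M.accepts ≤ Fintype.card σ :=
  Nat.sInf_le ⟨ofDFA M, ofDFA_recognizes M⟩

/-! ### Entropy inequality -/

/-- `t log t` -/
noncomputable def phi (t : ℝ) : ℝ := t * Real.log t

theorem phi_zero : phi 0 = 0 := by simp [phi]

theorem phi_one : phi 1 = 0 := by simp [phi]

theorem gibbs (A B t : ℝ) (hA : 0 ≤ A) (hB : 0 ≤ B) (ht0 : 0 < t) (ht1 : t < 1) :
    phi (A + B) - phi A - phi B ≤ A * (-Real.log t) + B * (-Real.log (1 - t)) := by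
  have h1t : 0 < 1 - t := by linarith
  have l1 : 0 ≤ -Real.log t := by
    have := Real.log_nonpos ht0.le ht1.le; linarith
  have l2 : 0 ≤ -Real.log (1 - t) := by
    have := Real.log_nonpos h1t.le (by linarith); linarith
  rcases hA.eq_or_lt with hA0 | hA0
  · subst hA0
    rw [zero_add, phi_zero]
    have := mul_nonneg hB l2
    linarith
  rcases hB.eq_or_lt with hB0 | hB0
  · subst hB0
    rw [add_zero, phi_zero]
    have := mul_nonneg hA l1
    linarith
  have hAB : 0 < A + B := by linarith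
  have e1 := Real.log_le_sub_one_of_pos (x := (A + B) * t / A) (by positivity)
  have e2 := Real.log_le_sub_one_of_pos (x := (A + B) * (1 - t) / B) (by positivity)
  rw [Real.log_div (by positivity) hA0.ne', Real.log_mul hAB.ne' ht0.ne'] at e1
  rw [Real.log_div (by positivity) hB0.ne', Real.log_mul hAB.ne' h1t.ne'] at e2
  have f1 := mul_le_mul_of_nonneg_left e1 hA
  have f2 := mul_le_mul_of_nonneg_left e2 hB
  have g1 : A * ((A + B) * t / A - 1) = (A + B) * t - A := by field_simp
  have g2 : B * ((A + B) * (1 - t) / B - 1) = (A + B) * (1 - t) - B := by field_simp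
  rw [g1] at f1
  rw [g2] at f2
  unfold phi
  nlinarith

theorem gibbs_eq (A B : ℝ) (hA : 0 < A) (hB : 0 < B) :
    phi (A + B) - phi A - phi B
      = A * (-Real.log (A / (A + B))) + B * (-Real.log (1 - A / (A + B))) := by
  have hAB : 0 < A + B := by linarith
  have h1 : 1 - A / (A + B) = B / (A + B) := by field_simp; ring
  rw [h1, Real.log_div hA.ne' hAB.ne', Real.log_div hB.ne' hAB.ne']
  unfold phi
  ring

theorem entropy_main {X M Y : Type} [Fintype M] [DecidableEq M] (μ : X → M → ℝ)
    (hμ0 : ∀ x m, 0 ≤ μ x m) (a : X → Y → Bool) (ans : Y → Finset M)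
    (h1 : ∀ y, ∀ m ∈ ans y, ∀ x x', μ x m ≠ 0 → μ x' m ≠ 0 → a x y = a x' y)
    (h2 : ∀ x y, ∑ m ∈ (ans y)ᶜ, μ x m ≤ 1 / 2) (ys : List Y) :
    ∀ S : Finset X, (∀ x ∈ S, ∀ x' ∈ S, (∀ y ∈ ys, a x y = a x' y) → x = x') →
      ∑ m, (phi (∑ x ∈ S, μ x m) - ∑ x ∈ S, phi (μ x m)) ≤ 1 / 2 * phi S.card := by
  classical
  induction ys with
  | nil =>
    intro S hS
    have hsub : ∀ x ∈ S, ∀ x' ∈ S, x = x' := fun x hx x' hx' => hS x hx x' hx' (by simp)
    rcases S.eq_empty_or_nonempty with h | ⟨x, hx⟩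
    · subst h
      simp [phi_zero]
    · have : S = {x} := by
        ext z
        rw [Finset.mem_singleton]
        exact ⟨fun hz => hsub z hz x hx, fun hz => hz ▸ hx⟩
      subst this
      simp [phi_one]
  | cons y ys ih =>
    intro S hS
    set S₁ := S.filter (fun x => a x y = true) with hS₁
    set S₀ := S.filter (fun x => ¬ a x y = true) with hS₀
    have hsep₁ := ih S₁ (by
      intro x hx x' hx' h
      rw [hS₁, Finset.mem_filter] at hx hx'
      refine hS x hx.1 x' hx'.1 ?_
      intro z hz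
      rcases List.mem_cons.1 hz with rfl | hz
      · rw [hx.2, hx'.2]
      · exact h z hz)
    have hsep₀ := ih S₀ (by
      intro x hx x' hx' h
      rw [hS₀, Finset.mem_filter] at hx hx'
      refine hS x hx.1 x' hx'.1 ?_
      intro z hz
      rcases List.mem_cons.1 hz with rfl | hz
      · have a1 := hx.2
        have a2 := hx'.2
        simp only [Bool.not_eq_true] at a1 a2
        rw [a1, a2]
      · exact h z hz)
    have hsplit : ∀ f : X → ℝ, ∑ x ∈ S, f x = ∑ x ∈ S₁, f x + ∑ x ∈ S₀, f x := fun f =>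
      (Finset.sum_filter_add_sum_filter_not S _ f).symm
    have hcard : (S.card : ℝ) = S₁.card + S₀.card := by
      have := hsplit (fun _ => 1)
      simpa using this
    have hterm : ∀ m, phi (∑ x ∈ S, μ x m) - ∑ x ∈ S, phi (μ x m)
        = (phi (∑ x ∈ S₁, μ x m + ∑ x ∈ S₀, μ x m) - phi (∑ x ∈ S₁, μ x m)
            - phi (∑ x ∈ S₀, μ x m))
          + (phi (∑ x ∈ S₁, μ x m) - ∑ x ∈ S₁, phi (μ x m))
          + (phi (∑ x ∈ S₀, μ x m) - ∑ x ∈ S₀, phi (μ x m)) := by
      intro m
      rw [hsplit, hsplit]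
      ring
    have hA0 : ∀ m, 0 ≤ ∑ x ∈ S₁, μ x m := fun m => Finset.sum_nonneg fun x _ => hμ0 x m
    have hB0 : ∀ m, 0 ≤ ∑ x ∈ S₀, μ x m := fun m => Finset.sum_nonneg fun x _ => hμ0 x m
    have hkey : ∑ m, (phi (∑ x ∈ S₁, μ x m + ∑ x ∈ S₀, μ x m) - phi (∑ x ∈ S₁, μ x m)
            - phi (∑ x ∈ S₀, μ x m))
        ≤ 1 / 2 * (phi ((S₁.card : ℝ) + S₀.card) - phi S₁.card - phi S₀.card) := by
      rcases S₁.eq_empty_or_nonempty with h | hne₁
      · simp [h, phi_zero]
      rcases S₀.eq_empty_or_nonempty with h | hne₀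
      · simp [h, phi_zero]
      have hc₁ : (0 : ℝ) < S₁.card := by exact_mod_cast hne₁.card_pos
      have hc₀ : (0 : ℝ) < S₀.card := by exact_mod_cast hne₀.card_pos
      set t : ℝ := S₁.card / (S₁.card + S₀.card) with ht
      have ht0 : 0 < t := by positivity
      have ht1 : t < 1 := by
        rw [ht, div_lt_one (by positivity)]; linarith
      have l1 : 0 ≤ -Real.log t := by
        have := Real.log_nonpos ht0.le ht1.le; linarith
      have l2 : 0 ≤ -Real.log (1 - t) := by
        have := Real.log_nonpos (sub_pos.2 ht1).le (by linarith : 1 - t ≤ 1); linarith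
      rw [gibbs_eq _ _ hc₁ hc₀, ← ht]
      have hz : ∀ m ∈ ans y, (phi (∑ x ∈ S₁, μ x m + ∑ x ∈ S₀, μ x m) - phi (∑ x ∈ S₁, μ x m)
            - phi (∑ x ∈ S₀, μ x m)) = 0 := by
        intro m hm
        by_cases hA : ∑ x ∈ S₁, μ x m = 0
        · rw [hA, zero_add, phi_zero]; ring
        · by_cases hB : ∑ x ∈ S₀, μ x m = 0
          · rw [hB, add_zero, phi_zero]; ring
          · exfalso
            obtain ⟨x, hx, hxm⟩ := Finset.exists_ne_zero_of_sum_ne_zero hA
            obtain ⟨x', hx', hxm'⟩ := Finset.exists_ne_zero_of_sum_ne_zero hB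
            rw [hS₁, Finset.mem_filter] at hx
            rw [hS₀, Finset.mem_filter] at hx'
            have := h1 y m hm x x' hxm hxm'
            exact hx'.2 (this ▸ hx.2)
      rw [← Finset.sum_add_sum_compl (ans y), Finset.sum_eq_zero hz, zero_add]
      calc ∑ m ∈ (ans y)ᶜ, (phi (∑ x ∈ S₁, μ x m + ∑ x ∈ S₀, μ x m) - phi (∑ x ∈ S₁, μ x m)
            - phi (∑ x ∈ S₀, μ x m))
          ≤ ∑ m ∈ (ans y)ᶜ, ((∑ x ∈ S₁, μ x m) * (-Real.log t)
              + (∑ x ∈ S₀, μ x m) * (-Real.log (1 - t))) :=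
            Finset.sum_le_sum fun m _ => gibbs _ _ t (hA0 m) (hB0 m) ht0 ht1
        _ = (∑ x ∈ S₁, ∑ m ∈ (ans y)ᶜ, μ x m) * (-Real.log t)
              + (∑ x ∈ S₀, ∑ m ∈ (ans y)ᶜ, μ x m) * (-Real.log (1 - t)) := by
            rw [Finset.sum_add_distrib, ← Finset.sum_mul, ← Finset.sum_mul,
              Finset.sum_comm (s := (ans y)ᶜ) (t := S₁), Finset.sum_comm (s := (ans y)ᶜ) (t := S₀)]
        _ ≤ (∑ _x ∈ S₁, (1 / 2 : ℝ)) * (-Real.log t)
              + (∑ _x ∈ S₀, (1 / 2 : ℝ)) * (-Real.log (1 - t)) := by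
            refine add_le_add (mul_le_mul_of_nonneg_right ?_ l1)
              (mul_le_mul_of_nonneg_right ?_ l2)
            · exact Finset.sum_le_sum fun x _ => h2 x y
            · exact Finset.sum_le_sum fun x _ => h2 x y
        _ = _ := by
            simp only [Finset.sum_const, nsmul_eq_mul]
            ring
    rw [Finset.sum_congr rfl (fun m _ => hterm m), Finset.sum_add_distrib,
      Finset.sum_add_distrib, hcard]
    linarith

/-- Combinatorial form: `|X| ≤ |M|²`. -/
theorem card_le_sq {X M Y : Type} [Fintype X] [Fintype M] [DecidableEq M] [Nonempty M]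
    (μ : X → M → ℝ)
    (hμ0 : ∀ x m, 0 ≤ μ x m) (hμ1 : ∀ x, ∑ m, μ x m = 1) (a : X → Y → Bool) (ans : Y → Finset M)
    (h1 : ∀ y, ∀ m ∈ ans y, ∀ x x', μ x m ≠ 0 → μ x' m ≠ 0 → a x y = a x' y)
    (h2 : ∀ x y, ∑ m ∈ (ans y)ᶜ, μ x m ≤ 1 / 2)
    (hsep : ∀ x x', (∀ y, a x y = a x' y) → x = x') :
    Fintype.card X ≤ Fintype.card M ^ 2 := by
  classical
  rcases isEmpty_or_nonempty X with hX | hX
  · simp
  -- a separating list
  have hex : ∀ p : X × X, ∃ y : Option Y, p.1 ≠ p.2 → ∃ z, y = some z ∧ a p.1 z ≠ a p.2 z := by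
    intro p
    by_cases hp : p.1 = p.2
    · exact ⟨none, fun h => absurd hp h⟩
    · by_contra hcon
      push Not at hcon
      apply hp
      apply hsep
      intro y
      by_contra hy
      exact hy ((hcon (some y)).2 y rfl)
  choose f hf using hex
  set ys : List Y := ((Finset.univ : Finset (X × X)).toList.map f).reduceOption with hys
  have hsepl : ∀ x ∈ (Finset.univ : Finset X), ∀ x' ∈ (Finset.univ : Finset X),
      (∀ y ∈ ys, a x y = a x' y) → x = x' := by
    intro x _ x' _ h
    by_contra hne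
    obtain ⟨z, hz, hz2⟩ := hf (x, x') hne
    apply hz2
    apply h
    rw [hys, List.reduceOption_mem_iff, ← hz]
    exact List.mem_map_of_mem (by simp)
  have hmain := entropy_main μ hμ0 a ans h1 h2 ys Finset.univ hsepl
  have hs0 : (0 : ℝ) < Fintype.card X := by exact_mod_cast Fintype.card_pos
  have hk0 : (0 : ℝ) < Fintype.card M := by exact_mod_cast Fintype.card_pos
  set s : ℝ := (Fintype.card X : ℝ) with hs
  set k : ℝ := (Fintype.card M : ℝ) with hk
  set c : ℝ := s / k with hc
  have hc0 : 0 < c := by positivity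
  have hneg : ∀ x m, phi (μ x m) ≤ 0 := by
    intro x m
    have hle : μ x m ≤ 1 := by
      rw [← hμ1 x]
      exact Finset.single_le_sum (fun m _ => hμ0 x m) (Finset.mem_univ m)
    exact mul_nonpos_of_nonneg_of_nonpos (hμ0 x m) (Real.log_nonpos (hμ0 x m) hle)
  have hlow : ∀ m, (∑ x, μ x m) * Real.log c + (∑ x, μ x m) - c
      ≤ phi (∑ x, μ x m) - ∑ x, phi (μ x m) := by
    intro m
    have h3 : ∑ x, phi (μ x m) ≤ 0 := Finset.sum_nonpos fun x _ => hneg x m
    have h4 : (∑ x, μ x m) * Real.log c + (∑ x, μ x m) - c ≤ phi (∑ x, μ x m) := by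
      have hV : 0 ≤ ∑ x, μ x m := Finset.sum_nonneg fun x _ => hμ0 x m
      rcases hV.eq_or_lt with h0 | h0
      · rw [← h0, phi_zero]; linarith
      · have h5 := Real.log_le_sub_one_of_pos (x := c / ∑ x, μ x m) (by positivity)
        rw [Real.log_div hc0.ne' h0.ne'] at h5
        have h6 := mul_le_mul_of_nonneg_left h5 hV
        have h7 : (∑ x, μ x m) * (c / (∑ x, μ x m) - 1) = c - ∑ x, μ x m := by field_simp
        rw [h7] at h6
        unfold phi
        linarith
    linarith
  have hsum := Finset.sum_le_sum (fun m (_ : m ∈ (Finset.univ : Finset M)) => hlow m)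
  have hVs : ∑ m, ∑ x, μ x m = s := by
    rw [Finset.sum_comm]
    simp [hμ1, hs]
  have hleft : ∑ m, ((∑ x, μ x m) * Real.log c + (∑ x, μ x m) - c) = s * Real.log c := by
    rw [Finset.sum_sub_distrib, Finset.sum_add_distrib, ← Finset.sum_mul, hVs, Finset.sum_const,
      nsmul_eq_mul, Finset.card_univ, ← hk, hc]
    field_simp
    ring
  rw [hleft] at hsum
  have h8 := hsum.trans hmain
  rw [Finset.card_univ, ← hs, hc, Real.log_div hs0.ne' hk0.ne'] at h8
  unfold phi at h8
  have h9 : Real.log s ≤ 2 * Real.log k := by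
    have : s * (Real.log s - Real.log k) ≤ s * (1 / 2 * Real.log s) := by linarith
    have := le_of_mul_le_mul_left this hs0
    linarith
  have h10 : Real.log s ≤ Real.log (k ^ 2) := by
    rw [Real.log_pow]; push_cast; exact h9
  have h11 := (Real.log_le_log_iff hs0 (by positivity)).1 h10
  rw [hs, hk] at h11
  exact_mod_cast h11

/-! ### Protocols -/

theorem output_apply {α : Type} {k : ℕ} (P : Protocol α k) (x y : List α) (o : Option Bool) :
    ((P.msg x).bind (P.out y)) o = ∑ m, P.msg x m * P.out y m o := by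
  rw [PMF.bind_apply, tsum_fintype]

theorem quotient_card_le {α : Type} {k : ℕ} {P : Protocol α k} {L : Language α}
    (hP : P.IsFor L) [Fintype (Set.range L.leftQuotient)] :
    Fintype.card (Set.range L.leftQuotient) ≤ k ^ 2 := by
  classical
  have hne : Nonempty (Fin k) := by
    obtain ⟨m, hm⟩ := (P.msg []).support_nonempty
    exact ⟨m⟩
  have hrep : ∀ r : Set.range L.leftQuotient, ∃ x, L.leftQuotient x = r.1 := fun r => r.2
  choose rep hrep using hrep
  have key := card_le_sq (X := Set.range L.leftQuotient) (M := Fin k) (Y := List α)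
    (fun r m => (P.msg (rep r) m).toReal) (fun _ _ => ENNReal.toReal_nonneg) ?_
    (fun r y => decide (y ∈ r.1))
    (fun y => Finset.univ.filter (fun m => P.out y m (some true) ≠ 0 ∨ P.out y m (some false) ≠ 0))
    ?_ ?_ ?_
  · simpa using key
  · intro r
    rw [← ENNReal.toReal_sum (fun m _ => PMF.apply_ne_top _ _)]
    have := (P.msg (rep r)).tsum_coe
    rw [tsum_fintype] at this
    rw [this]
    rfl
  · intro y m hm r r' hr hr'
    rw [Finset.mem_filter] at hm
    have hr0 : P.msg (rep r) m ≠ 0 := fun h => hr (by rw [h]; rfl)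
    have hr0' : P.msg (rep r') m ≠ 0 := fun h => hr' (by rw [h]; rfl)
    have htrue : P.out y m (some true) ≠ 0 → ∀ r, P.msg (rep r) m ≠ 0 → y ∈ r.1 := by
      intro ho r hr
      by_contra hcon
      have hx : rep r ++ y ∉ L := by
        rw [← Language.mem_leftQuotient, hrep]; exact hcon
      have h := ((hP (rep r) y).2 hx).1
      rw [output_apply, Finset.sum_eq_zero_iff] at h
      exact mul_ne_zero hr ho (h m (Finset.mem_univ m))
    have hfalse : P.out y m (some false) ≠ 0 → ∀ r, P.msg (rep r) m ≠ 0 → y ∉ r.1 := by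
      intro ho r hr hcon
      have hx : rep r ++ y ∈ L := by
        rw [← Language.mem_leftQuotient, hrep]; exact hcon
      have h := ((hP (rep r) y).1 hx).1
      rw [output_apply, Finset.sum_eq_zero_iff] at h
      exact mul_ne_zero hr ho (h m (Finset.mem_univ m))
    rcases hm.2 with h | h
    · simp [htrue h r hr0, htrue h r' hr0']
    · simp [hfalse h r hr0, hfalse h r' hr0']
  · intro r y
    -- probability of a silent message is at most `1/2`
    have hsum : ∑ m, P.msg (rep r) m = 1 := by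
      have := (P.msg (rep r)).tsum_coe
      rwa [tsum_fintype] at this
    set F := Finset.univ.filter
      (fun m => P.out y m (some true) ≠ 0 ∨ P.out y m (some false) ≠ 0) with hF
    have hhalf : (1 / 2 : ℝ≥0∞) ≤ ∑ m ∈ F, P.msg (rep r) m := by
      have hb : ∀ b : Bool, (1 / 2 : ℝ≥0∞) ≤ ((P.msg (rep r)).bind (P.out y)) (some b) →
          (1 / 2 : ℝ≥0∞) ≤ ∑ m ∈ F, P.msg (rep r) m := by
        intro b hb
        refine hb.trans ?_
        rw [output_apply, Finset.sum_filter]
        refine Finset.sum_le_sum fun m _ => ?_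
        split_ifs with hc
        · exact (mul_le_mul_right (PMF.coe_le_one _ _) _).trans (mul_one _).le
        · push Not at hc
          rcases b with _ | _
          · rw [hc.2, mul_zero]
          · rw [hc.1, mul_zero]
      by_cases hx : rep r ++ y ∈ L
      · exact hb true ((hP (rep r) y).1 hx).2
      · exact hb false ((hP (rep r) y).2 hx).2
    have hsum' : ∑ m ∈ F, P.msg (rep r) m + ∑ m ∈ Fᶜ, P.msg (rep r) m = 1 := by
      rw [Finset.sum_add_sum_compl]; exact hsum
    have hR : (∑ m ∈ F, (P.msg (rep r) m).toReal) + ∑ m ∈ Fᶜ, (P.msg (rep r) m).toReal = 1 := by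
      rw [← ENNReal.toReal_sum (fun m _ => PMF.apply_ne_top _ _),
        ← ENNReal.toReal_sum (fun m _ => PMF.apply_ne_top _ _), ← ENNReal.toReal_add, hsum']
      · rfl
      · exact (ENNReal.sum_lt_top.2 fun m _ => (PMF.apply_ne_top _ _).lt_top).ne
      · exact (ENNReal.sum_lt_top.2 fun m _ => (PMF.apply_ne_top _ _).lt_top).ne
    have hR2 : (1 / 2 : ℝ) ≤ ∑ m ∈ F, (P.msg (rep r) m).toReal := by
      rw [← ENNReal.toReal_sum (fun m _ => PMF.apply_ne_top _ _)]
      have := ENNReal.toReal_mono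
        (ENNReal.sum_lt_top.2 fun m _ => (PMF.apply_ne_top (P.msg (rep r)) m).lt_top).ne hhalf
      simpa using this
    show ∑ m ∈ Fᶜ, (P.msg (rep r) m).toReal ≤ 1 / 2
    linarith
  · intro r r' h
    apply Subtype.ext
    ext y
    have := h y
    simpa using this

/-- the listed upper bound `lvs L ≤ k²`. -/
theorem lvs_le_sq {α : Type} {k : ℕ} {P : Protocol α k} {L : Language α} (hL : L.IsRegular)
    (hP : P.IsFor L) : lvs L ≤ k ^ 2 := by
  classical
  have hfin := hL.finite_range_leftQuotient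
  have : Fintype (Set.range L.leftQuotient) := hfin.fintype
  have h1 := lvs_le_of_DFA L.toDFA
  rw [Language.accepts_toDFA] at h1
  exact h1.trans (quotient_card_le hP)

end Pool.Agent.LVFA
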