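import Pool.Agent.LVFA.Lower
import Pool.Agent.LVFA.Upper

set_option autoImplicit false

/-!
# The gap is quadratic
-/

namespace Pool.Agent.LVFA

open scoped ENNReal

/-- a coordinate of the state. -/
def proj (N : ℕ) (c : Bool) (s : ZMod N × ZMod N) : ZMod N := cond c s.1 s.2

section protocol
variable {α : Type} [DecidableEq α] (b₀ : α)

theorem step_dep (N : ℕ) (a : α) (c : Bool) :
    ∃ (c' : Bool) (ψ : ZMod N → ZMod N), ∀ s,
      proj N c ((M N b₀).step s a) = ψ (proj N c' s) := by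
  by_cases h : a = b₀
  · cases c
    · exact ⟨true, fun z => 2 * z, fun s => by simp [M, h, proj]⟩
    · exact ⟨true, id, fun s => by simp [M, h, proj]⟩
  · cases c
    · exact ⟨true, fun z => z + 1, fun s => by simp [M, h, proj]⟩
    · exact ⟨false, id, fun s => by simp [M, h, proj]⟩

theorem evalFrom_dep (N : ℕ) (y : List α) (c : Bool) :
    ∃ (c' : Bool) (φ : ZMod N → ZMod N), ∀ s,
      proj N c ((M N b₀).evalFrom s y) = φ (proj N c' s) := by
  induction y with
  | nil => exact ⟨c, id, fun s => rfl⟩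
  | cons a y ih =>
    obtain ⟨c₁, φ, hφ⟩ := ih
    obtain ⟨c₂, ψ, hψ⟩ := step_dep b₀ N a c₁
    refine ⟨c₂, φ ∘ ψ, fun s => ?_⟩
    rw [DFA.evalFrom_cons, hφ, hψ]
    rfl

theorem bool_bind (c₀ : Bool) (d : Bool) (o : Option Bool) :
    ((PMF.uniformOfFintype Bool).bind (fun c => if c = c₀ then PMF.pure (some d) else PMF.pure none)) o
      = (if o = some d then 1 / 2 else 0) + (if o = none then 1 / 2 else 0) := by
  rw [PMF.bind_apply, tsum_fintype, Fintype.sum_bool]
  simp only [PMF.uniformOfFintype_apply, Fintype.card_bool]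
  cases c₀ <;> simp [PMF.pure_apply, add_comm]

theorem exists_protocol (N : ℕ) [NeZero N] :
    ∃ P : Protocol α (2 * N), P.IsFor (M N b₀).accepts := by
  classical
  have hcard : Fintype.card (Bool × ZMod N) = 2 * N := by
    rw [Fintype.card_prod, Fintype.card_bool, ZMod.card]
  set e : Bool × ZMod N ≃ Fin (2 * N) := Fintype.equivFinOfCardEq hcard with he
  choose cc φ hφ using fun y => evalFrom_dep b₀ N y true
  refine ⟨⟨fun x => (PMF.uniformOfFintype Bool).map (fun c => e (c, proj N c ((M N b₀).eval x))),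
    fun y m => if (e.symm m).1 = cc y then
      PMF.pure (some (decide (φ y (e.symm m).2 = 0))) else PMF.pure none⟩, ?_⟩
  intro x y
  have hout : ((PMF.uniformOfFintype Bool).map
      (fun c => e (c, proj N c ((M N b₀).eval x)))).bind
      (fun m => if (e.symm m).1 = cc y then
        PMF.pure (some (decide (φ y (e.symm m).2 = 0))) else PMF.pure none)
      = (PMF.uniformOfFintype Bool).bind (fun c => if c = cc y then
        PMF.pure (some (decide (φ y (proj N (cc y) ((M N b₀).eval x)) = 0)))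
        else PMF.pure none) := by
    rw [PMF.bind_map]
    congr 1
    funext c
    simp only [Function.comp, Equiv.symm_apply_apply]
    by_cases hc : c = cc y
    · rw [if_pos hc, if_pos hc, hc]
    · rw [if_neg hc, if_neg hc]
  show Correct _ (PMF.bind _ _)
  rw [hout]
  have hmem : x ++ y ∈ (M N b₀).accepts ↔ φ y (proj N (cc y) ((M N b₀).eval x)) = 0 := by
    rw [DFA.mem_accepts, DFA.eval, DFA.evalFrom_of_append]
    have := hφ y ((M N b₀).evalFrom (M N b₀).start x)
    show proj N true _ = 0 ↔ _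
    rw [this]
  constructor
  · intro h
    rw [hmem] at h
    rw [bool_bind, bool_bind]
    simp [h]
  · intro h
    rw [hmem] at h
    rw [bool_bind, bool_bind]
    simp [h]

theorem isRegular_M (N : ℕ) [NeZero N] : (M N b₀).accepts.IsRegular :=
  ⟨ZMod N × ZMod N, inferInstance, M N b₀, rfl⟩

theorem lvmc_le (N : ℕ) [NeZero N] : lvmc (M N b₀).accepts ≤ 2 * N :=
  Nat.sInf_le (exists_protocol b₀ N)

theorem lvs_eq (a₀ : α) (h : a₀ ≠ b₀) (N : ℕ) [NeZero N] (hN : Odd N) :
    lvs (M N b₀).accepts = N ^ 2 := by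
  apply le_antisymm
  · have := lvs_le_of_DFA (M N b₀)
    rwa [Fintype.card_prod, ZMod.card, ← sq] at this
  · have hne : {n | ∃ A : Automaton α n, A.Recognizes (M N b₀).accepts}.Nonempty :=
      ⟨_, ofDFA (M N b₀), ofDFA_recognizes (M N b₀)⟩
    obtain ⟨A, hA⟩ := Nat.sInf_mem hne
    exact sq_le_of_recognizes N a₀ b₀ h hN hA

end protocol

/-- every regular language has a protocol. -/
theorem exists_protocol_of_regular {α : Type} {L : Language α} (hL : L.IsRegular) :
    ∃ k, ∃ P : Protocol α k, P.IsFor L := by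
  classical
  obtain ⟨σ, hσ, D, hD⟩ := hL
  refine ⟨Fintype.card σ, ⟨fun x => PMF.pure (Fintype.equivFin σ (D.eval x)),
    fun y m => PMF.pure (some (decide (D.evalFrom ((Fintype.equivFin σ).symm m) y ∈ D.accept)))⟩,
    ?_⟩
  intro x y
  have hmem : x ++ y ∈ L ↔ D.evalFrom (D.eval x) y ∈ D.accept := by
    rw [← hD, DFA.mem_accepts, DFA.eval, DFA.evalFrom_of_append]
  have hout : (PMF.pure (Fintype.equivFin σ (D.eval x))).bind (fun m =>
      PMF.pure (some (decide (D.evalFrom ((Fintype.equivFin σ).symm m) y ∈ D.accept))))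
      = PMF.pure (some (decide (D.evalFrom (D.eval x) y ∈ D.accept))) := by
    rw [PMF.pure_bind, Equiv.symm_apply_apply]
  show Correct _ ((PMF.pure _).bind _)
  rw [hout]
  constructor
  · intro h
    rw [hmem] at h
    simp [h, PMF.pure_apply]
  · intro h
    rw [hmem] at h
    simp [h, PMF.pure_apply]

theorem lvs_le_lvmc_sq {α : Type} {L : Language α} (hL : L.IsRegular) : lvs L ≤ lvmc L ^ 2 := by
  obtain ⟨P, hP⟩ := Nat.sInf_mem (s := {k | ∃ P : Protocol α k, P.IsFor L})
    (exists_protocol_of_regular hL)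
  exact lvs_le_sq hL hP

theorem bddAbove_G (α : Type) (m : ℕ) :
    m ^ 2 ∈ upperBounds {n | ∃ L : Language α, L.IsRegular ∧ lvmc L ≤ m ∧ lvs L = n} := by
  rintro n ⟨L, hL, hm, rfl⟩
  exact (lvs_le_lvmc_sq hL).trans (Nat.pow_le_pow_left hm 2)

theorem G_le (α : Type) (m : ℕ) : G α m ≤ m ^ 2 := csSup_le' (bddAbove_G α m)

theorem exists_lang {α : Type} [DecidableEq α] {a₀ b₀ : α} (h : a₀ ≠ b₀) {N : ℕ} (hN : Odd N) :
    ∃ L : Language α, L.IsRegular ∧ lvmc L ≤ 2 * N ∧ lvs L = N ^ 2 := by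
  have : NeZero N := ⟨hN.pos.ne'⟩
  exact ⟨(M N b₀).accepts, isRegular_M b₀ N, lvmc_le b₀ N, lvs_eq b₀ a₀ h N hN⟩

theorem le_G {α : Type} [DecidableEq α] {a₀ b₀ : α} (h : a₀ ≠ b₀) (m : ℕ) :
    (m / 2 - 1) ^ 2 ≤ G α m := by
  rcases Nat.eq_zero_or_pos (m / 2) with h0 | h0
  · rw [h0]; simp
  · have hodd : ∃ N, Odd N ∧ m / 2 - 1 ≤ N ∧ N ≤ m / 2 := by
      rcases Nat.even_or_odd (m / 2) with he | ho
      · obtain ⟨c, hc⟩ := he
        exact ⟨m / 2 - 1, ⟨c - 1, by omega⟩, le_refl _, by omega⟩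
      · exact ⟨m / 2, ho, by omega, le_refl _⟩
    obtain ⟨N, hN, hlo, hhi⟩ := hodd
    obtain ⟨L, h1, h2, h3⟩ := exists_lang h hN
    have h4 : N ^ 2 ≤ G α m := le_csSup ⟨m ^ 2, bddAbove_G α m⟩ ⟨L, h1, h2.trans (by omega), h3⟩
    exact (Nat.pow_le_pow_left hlo 2).trans h4

/-- **Main theorem**: over every alphabet with at least two letters,
`(⌊m/2⌋ - 1)² ≤ G(m) ≤ m²`. -/
theorem main (α : Type) [Fintype α] (hα : 2 ≤ Fintype.card α) (m : ℕ) :
    (m / 2 - 1) ^ 2 ≤ G α m ∧ G α m ≤ m ^ 2 := by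
  classical
  obtain ⟨a₀, b₀, h⟩ := Fintype.exists_pair_of_one_lt_card (α := α) (by omega)
  exact ⟨le_G h m, G_le α m⟩

end Pool.Agent.LVFA
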