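import Pool.Agent.LVFA.Defs

set_option autoImplicit false

/-!
# The lower bound: regular languages with `lvmc ≤ 2N` and `lvs ≥ N²`
-/

namespace Pool.Agent.LVFA

open scoped ENNReal

section general

variable {α : Type} {n : ℕ}

/-- distribution after reading `w` from the state `p`. -/
noncomputable def Automaton.runFrom (A : Automaton α n) (p : Fin n) (w : List α) : PMF (Fin n) :=
  w.foldl (fun μ a => μ.bind fun q => A.step q a) (PMF.pure p)

theorem foldl_bind (A : Automaton α n) (w : List α) (μ : PMF (Fin n)) :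
    w.foldl (fun μ a => μ.bind fun q => A.step q a) μ = μ.bind (fun p => A.runFrom p w) := by
  induction w generalizing μ with
  | nil => simp [Automaton.runFrom, PMF.bind_pure]
  | cons a w ih =>
    rw [List.foldl_cons, ih]
    have h : ∀ p, A.runFrom p (a :: w) = (A.step p a).bind (fun q => A.runFrom q w) := by
      intro p
      unfold Automaton.runFrom
      rw [List.foldl_cons, PMF.pure_bind]
      exact ih (A.step p a)
    simp_rw [h]
    rw [PMF.bind_bind]

theorem run_append (A : Automaton α n) (x y : List α) :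
    A.run (x ++ y) = (A.run x).bind (fun p => A.runFrom p y) := by
  unfold Automaton.run
  rw [List.foldl_append, foldl_bind]

theorem run_append_apply (A : Automaton α n) (x y : List α) (q : Fin n) :
    A.run (x ++ y) q = ∑ p, A.run x p * A.runFrom p y q := by
  rw [run_append, PMF.bind_apply, tsum_fintype]

/-- probability of accepting when reading `y` from `p`. -/
noncomputable def Automaton.acc (A : Automaton α n) (p : Fin n) (y : List α) : ℝ≥0∞ :=
  ((A.runFrom p y).map A.kind) (some true)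

theorem acc_le_one (A : Automaton α n) (p : Fin n) (y : List α) : A.acc p y ≤ 1 :=
  PMF.coe_le_one _ _

theorem map_run_append (A : Automaton α n) (x y : List α) :
    ((A.run (x ++ y)).map A.kind) (some true) = ∑ p, A.run x p * A.acc p y := by
  rw [run_append, PMF.map_bind, PMF.bind_apply, tsum_fintype]
  rfl

theorem mem_of_acc {A : Automaton α n} {L : Language α} (hA : A.Recognizes L) {x y : List α}
    {p : Fin n} (hp : A.run x p ≠ 0) (hacc : A.acc p y ≠ 0) : x ++ y ∈ L := by
  by_contra hcon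
  have h := ((hA (x ++ y)).2 hcon).1
  rw [map_run_append, Finset.sum_eq_zero_iff] at h
  exact mul_ne_zero hp hacc (h p (Finset.mem_univ p))

open Classical in
/-- mass of a set of states after reading `x`. -/
noncomputable def Automaton.mass (A : Automaton α n) (x : List α) (E : Set (Fin n)) : ℝ≥0∞ :=
  ∑ p, if p ∈ E then A.run x p else 0

/-- states from which `y` is known to lead into `L`. -/
def Automaton.knows (A : Automaton α n) (L : Language α) (y : List α) : Set (Fin n) :=
  {p | ∀ x', A.run x' p ≠ 0 → x' ++ y ∈ L}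

theorem half_le_mass {A : Automaton α n} {L : Language α} (hA : A.Recognizes L) {x y : List α}
    (h : x ++ y ∈ L) : 1 / 2 ≤ A.mass x (A.knows L y) := by
  classical
  have h1 := ((hA (x ++ y)).1 h).2
  rw [map_run_append] at h1
  refine h1.trans ?_
  unfold Automaton.mass
  refine Finset.sum_le_sum fun p _ => ?_
  by_cases hp : A.acc p y = 0
  · rw [hp, mul_zero]; exact zero_le
  · have : p ∈ A.knows L y := fun x' hx' => mem_of_acc hA hx' hp
    rw [if_pos this]
    exact (mul_le_mul_right (acc_le_one A p y) _).trans (mul_one _).le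

theorem sum_run (A : Automaton α n) (x : List α) : ∑ p, A.run x p = 1 := by
  have := (A.run x).tsum_coe
  rwa [tsum_fintype] at this

theorem sum_runFrom (A : Automaton α n) (p : Fin n) (y : List α) :
    ∑ q, A.runFrom p y q = 1 := by
  have := (A.runFrom p y).tsum_coe
  rwa [tsum_fintype] at this

/-- The key argument: some state knows both answers. -/
theorem exists_knows_both {A : Automaton α n} {L : Language α} (hA : A.Recognizes L)
    (x w y₁ y₂ : List α) (h1 : x ++ y₁ ∈ L) (h2 : x ++ y₂ ∈ L) (h1w : x ++ w ++ y₁ ∈ L)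
    (h2w : x ++ w ++ y₂ ∈ L)
    (hw : ∀ x', x' ++ y₁ ∉ L → x' ++ w ++ y₁ ∉ L ∧ x' ++ w ++ y₂ ∉ L) :
    ∃ p, (∃ x', A.run x' p ≠ 0) ∧ p ∈ A.knows L y₁ ∧ p ∈ A.knows L y₂ := by
  classical
  by_contra hcon
  push Not at hcon
  set E₁ := A.knows L y₁ with hE₁
  set E₂ := A.knows L y₂ with hE₂
  have hzero : ∀ x' p, p ∈ E₁ → p ∈ E₂ → A.run x' p = 0 := by
    intro x' p hp1 hp2
    by_contra hne
    exact hcon p ⟨x', hne⟩ hp1 hp2
  have m1 : 1 / 2 ≤ A.mass x E₁ := half_le_mass hA h1
  have m2 : 1 / 2 ≤ A.mass x E₂ := half_le_mass hA h2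
  have m1w : 1 / 2 ≤ A.mass (x ++ w) E₁ := half_le_mass hA h1w
  have m2w : 1 / 2 ≤ A.mass (x ++ w) E₂ := half_le_mass hA h2w
  have hle : A.mass x E₁ + A.mass x E₂ ≤ 1 := by
    rw [← sum_run A x]
    unfold Automaton.mass
    rw [← Finset.sum_add_distrib]
    refine Finset.sum_le_sum fun p _ => ?_
    by_cases hp1 : p ∈ E₁
    · by_cases hp2 : p ∈ E₂
      · simp [hzero x p hp1 hp2]
      · simp [hp1, hp2]
    · by_cases hp2 : p ∈ E₂
      · simp [hp1, hp2]
      · simp [hp1, hp2]
  have hE1 : A.mass x E₁ ≤ 1 / 2 := by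
    have h3 : A.mass x E₁ + 1 / 2 ≤ 1 / 2 + 1 / 2 := by
      rw [ENNReal.add_halves]
      exact (add_le_add_right m2 _).trans hle
    have h4 : (1 / 2 : ℝ≥0∞) ≠ ⊤ := by
      rw [one_div]
      exact ENNReal.inv_ne_top.2 (by norm_num)
    exact (ENNReal.add_le_add_iff_right h4).1 h3
  have hsum : A.mass (x ++ w) E₁ + A.mass (x ++ w) E₂ ≤ A.mass x E₁ := by
    unfold Automaton.mass
    rw [← Finset.sum_add_distrib]
    calc ∑ q, ((if q ∈ E₁ then A.run (x ++ w) q else 0) + (if q ∈ E₂ then A.run (x ++ w) q else 0))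
        ≤ ∑ q, (if q ∈ E₁ ∨ q ∈ E₂ then A.run (x ++ w) q else 0) := by
          refine Finset.sum_le_sum fun q _ => ?_
          by_cases hq1 : q ∈ E₁
          · by_cases hq2 : q ∈ E₂
            · simp [hzero (x ++ w) q hq1 hq2]
            · simp [hq1, hq2]
          · by_cases hq2 : q ∈ E₂
            · simp [hq1, hq2]
            · simp [hq1, hq2]
      _ = ∑ q, ∑ p, (if q ∈ E₁ ∨ q ∈ E₂ then A.run x p * A.runFrom p w q else 0) := by
          refine Finset.sum_congr rfl fun q _ => ?_
          split_ifs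
          · exact run_append_apply A x w q
          · simp
      _ = ∑ p, ∑ q, (if q ∈ E₁ ∨ q ∈ E₂ then A.run x p * A.runFrom p w q else 0) :=
          Finset.sum_comm
      _ ≤ ∑ p, if p ∈ E₁ then A.run x p else 0 := by
          refine Finset.sum_le_sum fun p _ => ?_
          by_cases hp : p ∈ E₁
          · rw [if_pos hp]
            calc ∑ q, (if q ∈ E₁ ∨ q ∈ E₂ then A.run x p * A.runFrom p w q else 0)
                ≤ ∑ q, A.run x p * A.runFrom p w q := by
                  refine Finset.sum_le_sum fun q _ => ?_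
                  split_ifs
                  · exact le_refl _
                  · exact zero_le
              _ = A.run x p := by rw [← Finset.mul_sum, sum_runFrom, mul_one]
          · rw [if_neg hp]
            refine le_of_eq (Finset.sum_eq_zero fun q _ => ?_)
            split_ifs with hq
            · -- `p ∉ E₁`: some `x'` with `run x' p ≠ 0` and `x' ++ y₁ ∉ L`
              by_cases hpq : A.runFrom p w q = 0
              · rw [hpq, mul_zero]
              · exfalso
                have hp' : ∃ x', A.run x' p ≠ 0 ∧ x' ++ y₁ ∉ L := by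
                  by_contra hc
                  push Not at hc
                  exact hp hc
                obtain ⟨x', hx', hx'L⟩ := hp'
                have hq' : A.run (x' ++ w) q ≠ 0 := by
                  rw [run_append_apply]
                  intro h0
                  rw [Finset.sum_eq_zero_iff] at h0
                  exact mul_ne_zero hx' hpq (h0 p (Finset.mem_univ p))
                obtain ⟨hn1, hn2⟩ := hw x' hx'L
                rcases hq with hq | hq
                · exact hn1 (hq (x' ++ w) hq')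
                · exact hn2 (hq (x' ++ w) hq')
            · rfl
  have hfin : (1 : ℝ≥0∞) ≤ 1 / 2 := by
    calc (1 : ℝ≥0∞) = 1 / 2 + 1 / 2 := (ENNReal.add_halves 1).symm
      _ ≤ A.mass (x ++ w) E₁ + A.mass (x ++ w) E₂ := add_le_add m1w m2w
      _ ≤ A.mass x E₁ := hsum
      _ ≤ 1 / 2 := hE1
  have : (1 / 2 : ℝ≥0∞) < 1 := by
    rw [one_div]
    exact ENNReal.inv_lt_one.2 (by norm_num)
  exact absurd hfin (not_le.2 this)

end general

/-! ### The language -/
section lang

variable (N : ℕ) {α : Type} [DecidableEq α] (a₀ b₀ : α)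

/-- The automaton of the language: states `(i, j)` in `ZMod N × ZMod N`; the letter `b₀` acts as
`(i, j) ↦ (i, 2 i)`, all the other letters act as `(i, j) ↦ (j, i + 1)`; accept if `i = 0`. -/
def M : DFA α (ZMod N × ZMod N) where
  step s a := if a = b₀ then (s.1, 2 * s.1) else (s.2, s.1 + 1)
  start := (0, 0)
  accept := {s | s.1 = 0}

theorem M_rep (h : a₀ ≠ b₀) (k : ℕ) (s : ZMod N × ZMod N) :
    (M N b₀).evalFrom s (List.replicate (2 * k) a₀) = (s.1 + k, s.2 + k) := by
  induction k generalizing s with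
  | zero => simp
  | succ k ih =>
    rw [mul_add, mul_one, List.replicate_succ, List.replicate_succ, DFA.evalFrom_cons,
      DFA.evalFrom_cons, ih]
    have hs : (M N b₀).step ((M N b₀).step s a₀) a₀ = (s.1 + 1, s.2 + 1) := by
      simp [M, h]
    rw [hs, Nat.cast_succ]
    simp only
    rw [add_assoc, add_assoc, add_comm (1 : ZMod N)]

variable [NeZero N]

/-- test of the first coordinate -/
def y1 (i : ZMod N) : List α := List.replicate (2 * (-i).val) a₀
/-- test of the second coordinate -/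
def y2 (j : ZMod N) : List α := a₀ :: List.replicate (2 * (-j).val) a₀
/-- the word `(s, t) ↦ (s, 2 s + (j - 2 i))` -/
def ww (i j : ZMod N) : List α :=
  List.replicate (2 * (j - 2 * i).val) a₀ ++ b₀ :: List.replicate (2 * (2 * i - j).val) a₀

theorem mem_y1 (h : a₀ ≠ b₀) (i : ZMod N) (x : List α) :
    x ++ y1 N a₀ i ∈ (M N b₀).accepts ↔ ((M N b₀).eval x).1 = i := by
  rw [DFA.mem_accepts, DFA.eval, DFA.evalFrom_of_append, y1, M_rep N a₀ b₀ h,
    ZMod.natCast_zmod_val]
  show ((M N b₀).evalFrom (M N b₀).start x).1 + -i = 0 ↔ _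
  rw [← sub_eq_add_neg, sub_eq_zero]

theorem mem_y2 (h : a₀ ≠ b₀) (j : ZMod N) (x : List α) :
    x ++ y2 N a₀ j ∈ (M N b₀).accepts ↔ ((M N b₀).eval x).2 = j := by
  rw [DFA.mem_accepts, DFA.eval, DFA.evalFrom_of_append, y2, DFA.evalFrom_cons,
    M_rep N a₀ b₀ h, ZMod.natCast_zmod_val]
  have hs : ∀ s : ZMod N × ZMod N, ((M N b₀).step s a₀).1 = s.2 := fun s => by simp [M, h]
  show ((M N b₀).step ((M N b₀).evalFrom (M N b₀).start x) a₀).1 + -j = 0 ↔ _
  rw [hs, ← sub_eq_add_neg, sub_eq_zero]

theorem step_b (s : ZMod N × ZMod N) : (M N b₀).step s b₀ = (s.1, 2 * s.1) := by simp [M]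

theorem eval_ww (h : a₀ ≠ b₀) (i j : ZMod N) (x : List α) :
    (M N b₀).eval (x ++ ww N a₀ b₀ i j)
      = (((M N b₀).eval x).1, 2 * ((M N b₀).eval x).1 + (j - 2 * i)) := by
  rw [DFA.eval, DFA.evalFrom_of_append, ww, DFA.evalFrom_of_append, DFA.evalFrom_cons,
    M_rep N a₀ b₀ h, M_rep N a₀ b₀ h, ZMod.natCast_zmod_val, ZMod.natCast_zmod_val, step_b]
  refine Prod.ext ?_ ?_
  · show _ + (j - 2 * i) + (2 * i - j) = _
    ring
  · show 2 * (_ + (j - 2 * i)) + (2 * i - j) = _
    ring

theorem exists_eval (h : a₀ ≠ b₀) (i j : ZMod N) : ∃ x, (M N b₀).eval x = (i, j) := by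
  refine ⟨List.replicate (2 * (j - i).val) a₀ ++ b₀ :: List.replicate (2 * (2 * i - j).val) a₀, ?_⟩
  rw [DFA.eval, DFA.evalFrom_of_append, DFA.evalFrom_cons, M_rep N a₀ b₀ h, M_rep N a₀ b₀ h,
    ZMod.natCast_zmod_val, ZMod.natCast_zmod_val, step_b]
  refine Prod.ext ?_ ?_
  · show 0 + (j - i) + (2 * i - j) = i
    ring
  · show 2 * (0 + (j - i)) + (2 * i - j) = j
    ring

theorem sq_le_of_recognizes (h : a₀ ≠ b₀) (hN : Odd N) {n : ℕ} {A : Automaton α n}
    (hA : A.Recognizes (M N b₀).accepts) : N ^ 2 ≤ n := by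
  have h2 : ∀ z : ZMod N, 2 * z = 0 → z = 0 := by
    intro z hz
    have hcop : Nat.Coprime 2 N := (Nat.coprime_two_left).2 hN
    have hu : IsUnit ((2 : ℕ) : ZMod N) := (ZMod.isUnit_iff_coprime 2 N).2 hcop
    exact (hu.mul_right_eq_zero).1 (by exact_mod_cast hz)
  have hex : ∀ s : ZMod N × ZMod N, ∃ p, (∃ x', A.run x' p ≠ 0) ∧
      p ∈ A.knows (M N b₀).accepts (y1 N a₀ s.1) ∧
      p ∈ A.knows (M N b₀).accepts (y2 N a₀ s.2) := by
    rintro ⟨i, j⟩
    obtain ⟨x, hx⟩ := exists_eval N a₀ b₀ h i j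
    refine exists_knows_both hA x (ww N a₀ b₀ i j) (y1 N a₀ i) (y2 N a₀ j) ?_ ?_ ?_ ?_ ?_
    · rw [mem_y1 N a₀ b₀ h, hx]
    · rw [mem_y2 N a₀ b₀ h, hx]
    · rw [mem_y1 N a₀ b₀ h, eval_ww N a₀ b₀ h, hx]
    · rw [mem_y2 N a₀ b₀ h, eval_ww N a₀ b₀ h, hx]; ring
    · intro x' hx'
      rw [mem_y1 N a₀ b₀ h] at hx'
      constructor
      · rw [mem_y1 N a₀ b₀ h, eval_ww N a₀ b₀ h]; exact hx'
      · rw [mem_y2 N a₀ b₀ h, eval_ww N a₀ b₀ h]
        intro he
        apply hx'
        have h' : 2 * ((M N b₀).eval x').1 + (j - 2 * i) = j := he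
        have h'' : 2 * (((M N b₀).eval x').1 - i) = 0 := by linear_combination h'
        exact sub_eq_zero.1 (h2 _ h'')
  choose f hf using hex
  have hinj : Function.Injective f := by
    intro s t hst
    obtain ⟨⟨x', hx'⟩, h1, h2⟩ := hf s
    obtain ⟨-, h3, h4⟩ := hf t
    rw [← hst] at h3 h4
    have a1 := (mem_y1 N a₀ b₀ h _ _).1 (h1 x' hx')
    have a2 := (mem_y2 N a₀ b₀ h _ _).1 (h2 x' hx')
    have a3 := (mem_y1 N a₀ b₀ h _ _).1 (h3 x' hx')
    have a4 := (mem_y2 N a₀ b₀ h _ _).1 (h4 x' hx')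
    exact Prod.ext (a1.symm.trans a3) (a2.symm.trans a4)
  have hcard := Fintype.card_le_of_injective f hinj
  rw [Fintype.card_fin, Fintype.card_prod, ZMod.card] at hcard
  rw [sq]
  exact hcard

end lang

end Pool.Agent.LVFA
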